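import Mathlib
import Pool.Agent.Lib.MP_a05d5a_an.Limit

/-!
# The Saff-Varga width conjecture is false

We build an entire function of finite order `lam` with `2 + 1/500 ≤ lam ≤ 4` none of whose
sections vanishes in the half strip `Re z ≥ 1`, `|Im z| ≤ 1`, which is the region `S_0(2)` with
`K = 1`, `x₀ = 1`. In particular the width conjecture, as posed, is false
(`not_widthConjecture` below).
-/

namespace Pool.Agent.Results.MP_a05d5a_an.SaffVargaWidth

open Filter

/-- The section `p_n(z) = ∑_{k ≤ n} a_k z^k`, where `a_k = f^(k)(0) / k!` are the Taylor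
coefficients of the entire function `f`. -/
noncomputable def partialSum (f : ℂ → ℂ) (n : ℕ) (z : ℂ) : ℂ :=
  ∑ k ∈ Finset.range (n + 1), (iteratedDeriv k f 0 / (k.factorial : ℂ)) * z ^ k

/-- The maximum modulus `M(r) = max_{|z| = r} |f(z)|`. -/
noncomputable def maxModulus (f : ℂ → ℂ) (r : ℝ) : ℝ :=
  sSup ((fun z => ‖f z‖) '' Metric.sphere (0 : ℂ) r)

/-- The order `limsup_{r → ∞} log log M(r) / log r`, as an extended real number. -/
noncomputable def growthOrder (f : ℂ → ℂ) : EReal :=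
  limsup (fun r : ℝ => ((Real.log (Real.log (maxModulus f r)) / Real.log r : ℝ) : EReal)) atTop

/-- The parabolic region `S_0(τ) = {x + iy : |y| ≤ K x^(1 - τ/2), x ≥ x₀}`. -/
def parabolicRegion (τ K x₀ : ℝ) : Set ℂ :=
  {z | |z.im| ≤ K * z.re ^ (1 - τ / 2) ∧ x₀ ≤ z.re}

theorem parabolicRegion_two_subset : parabolicRegion 2 1 1 ⊆ Pool.Agent.Lib.MP_a05d5a_an.Strip := by
  rintro z ⟨h1, h2⟩
  refine ⟨h2, ?_⟩
  simpa using h1

open Pool.Agent.Lib.MP_a05d5a_an in
/-- There is an entire function `f` of finite order `lam`, `2 + 1/500 ≤ lam ≤ 4`, such that no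
section of `f` vanishes in `S_0(2) = {x + iy : |y| ≤ 1, x ≥ 1}` (so `K = 1` and `x₀ = 1`). -/
theorem result : ∃ f : ℂ → ℂ, Differentiable ℂ f ∧
    (∃ lam : ℝ, growthOrder f = (lam : EReal) ∧ 2 + 1 / 500 ≤ lam ∧ lam ≤ 4) ∧
    ∀ n : ℕ, ∀ z ∈ parabolicRegion 2 1 1, partialSum f n z ≠ 0 := by
  refine ⟨ff, ff_differentiable, ?_, ?_⟩
  · have h1 : growthOrder ff ≤ ((4 : ℝ) : EReal) := ord_le
    have h2 : ((2 + 1 / 500 : ℝ) : EReal) ≤ growthOrder ff := le_ord
    have h3 : growthOrder ff ≠ ⊤ := fun h => by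
      rw [h] at h1
      exact absurd h1 (not_le.mpr (EReal.coe_lt_top 4))
    have h4 : growthOrder ff ≠ ⊥ := fun h => by
      rw [h] at h2
      exact absurd h2 (not_le.mpr (EReal.bot_lt_coe _))
    refine ⟨(growthOrder ff).toReal, (EReal.coe_toReal h3 h4).symm, ?_, ?_⟩
    · rw [← EReal.coe_le_coe_iff, EReal.coe_toReal h3 h4]
      exact h2
    · rw [← EReal.coe_le_coe_iff, EReal.coe_toReal h3 h4]
      exact h1
  · intro n z hz
    have h := ff_section_ne n (parabolicRegion_two_subset hz)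
    unfold partialSum
    simp_rw [ff_taylor]
    exact h

/-- The rotated region `S_θ(τ) = e^(iθ) S_0(τ)`. -/
noncomputable def rotatedRegion (τ K x₀ θ : ℝ) : Set ℂ :=
  (fun z => Complex.exp (Complex.I * θ) * z) '' parabolicRegion τ K x₀

/-- The width conjecture, as posed. -/
def WidthConjecture : Prop :=
  ∀ τ K x₀ : ℝ, 0 < K → 0 < x₀ → ∀ f : ℂ → ℂ, Differentiable ℂ f →
    ∀ lam : ℝ, growthOrder f = (lam : EReal) → 0 < lam → τ < lam →
      ∃ M : Set ℕ, M.Infinite ∧ (∀ m ∈ M, 0 < m) ∧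
        ∀ θ : ℝ, ∃ m ∈ M, ∃ z ∈ rotatedRegion τ K x₀ θ, partialSum f m z = 0

/-- The width conjecture is false. -/
theorem not_widthConjecture : ¬ WidthConjecture := by
  intro hW
  obtain ⟨f, hf, ⟨lam, hlam, h1, _⟩, hs⟩ := result
  obtain ⟨M, _, _, hM⟩ := hW 2 1 1 one_pos one_pos f hf lam hlam (by linarith) (by linarith)
  obtain ⟨m, _, z, ⟨w, hw, rfl⟩, hz⟩ := hM 0
  have : Complex.exp (Complex.I * ((0 : ℝ) : ℂ)) * w = w := by simp
  simp only [this] at hz
  exact hs m w hw hz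

end Pool.Agent.Results.MP_a05d5a_an.SaffVargaWidth
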